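import Pool.Agent.Q284.NP.Stm

set_option autoImplicit false

namespace Pool.Agent.Q176.NP

open Pool.Agent.Q284.NP IsLocalRing

/-- the ideal of the denominators of `w` -/
def den (A L : Type) [CommRing A] [Field L] [Algebra A L] (w : L) : Ideal A where
  carrier := {a | ∃ t : A, algebraMap A L a * w = algebraMap A L t}
  zero_mem' := ⟨0, by simp⟩
  add_mem' := by
    rintro x y ⟨t, ht⟩ ⟨u, hu⟩
    exact ⟨t + u, by rw [map_add, map_add, add_mul, ht, hu]⟩
  smul_mem' := by
    rintro c x ⟨t, ht⟩
    exact ⟨c * t, by rw [smul_eq_mul, map_mul, map_mul, mul_assoc, ht]⟩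

lemma mem_den {A L : Type} [CommRing A] [Field L] [Algebra A L] {w : L} {a : A} :
    a ∈ den A L w ↔ ∃ t : A, algebraMap A L a * w = algebraMap A L t := Iff.rfl

theorem dvr : S_DVR := by
  intro A L _ _ _ _ _ _ _ z hz
  by_contra hcon
  have hinj : Function.Injective (algebraMap A L) := IsFractionRing.injective A L
  -- a maximal ideal of denominators of multiples of `z`
  have hne : ({I : Ideal A | ∃ b : A, I = den A L (algebraMap A L b * z) ∧ I ≠ ⊤}).Nonempty := by
    refine ⟨den A L (algebraMap A L 1 * z), 1, rfl, ?_⟩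
    intro h
    have h1 : (1 : A) ∈ den A L (algebraMap A L 1 * z) := by rw [h]; trivial
    obtain ⟨t, ht⟩ := h1
    rw [map_one, one_mul, one_mul] at ht
    exact hcon ⟨t, ht.symm⟩
  obtain ⟨P, ⟨b0, hP, hPtop⟩, hmax⟩ : ∃ P : Ideal A, (∃ b : A, P = den A L (algebraMap A L b * z) ∧ P ≠ ⊤) ∧
      ∀ I ∈ ({I : Ideal A | ∃ b : A, I = den A L (algebraMap A L b * z) ∧ I ≠ ⊤}), ¬ P < I :=
    set_has_maximal_iff_noetherian.mpr (inferInstance : IsNoetherian A A) _ hne
  have hprime : P.IsPrime := by
    refine ⟨hPtop, ?_⟩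
    intro x y hxy
    by_contra hno
    push Not at hno
    obtain ⟨hx, hy⟩ := hno
    have hmem : den A L (algebraMap A L (y * b0) * z) ∈
        {I : Ideal A | ∃ b : A, I = den A L (algebraMap A L b * z) ∧ I ≠ ⊤} := by
      refine ⟨y * b0, rfl, ?_⟩
      intro h
      have h1 : (1 : A) ∈ den A L (algebraMap A L (y * b0) * z) := by rw [h]; trivial
      obtain ⟨t, ht⟩ := h1
      apply hy
      rw [hP]
      exact ⟨t, by rw [← ht, map_one, one_mul, map_mul, mul_assoc]⟩
    apply hmax _ hmem
    rw [lt_iff_le_and_ne]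
    constructor
    · intro c hc
      rw [hP] at hc
      obtain ⟨t, ht⟩ := hc
      exact ⟨y * t, by rw [map_mul, map_mul, ← ht]; ring⟩
    · intro heq
      apply hx
      rw [heq]
      rw [hP] at hxy
      obtain ⟨t, ht⟩ := hxy
      exact ⟨t, by rw [← ht, map_mul, map_mul]; ring⟩
  set z1 : L := algebraMap A L b0 * z with hz1
  have hz1A : ∀ t : A, algebraMap A L t ≠ z1 := by
    intro t ht
    apply hPtop
    rw [Ideal.eq_top_iff_one, hP]
    exact ⟨t, by rw [map_one, one_mul, ht]⟩
  have hPbot : P ≠ ⊥ := by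
    obtain ⟨u, v, hv, huv⟩ := IsFractionRing.div_surjective (A := A) z1
    have hv0 : v ≠ 0 := nonZeroDivisors.ne_zero hv
    have hvK : algebraMap A L v ≠ 0 := by rw [Ne, IsFractionRing.to_map_eq_zero_iff]; exact hv0
    intro h
    apply hv0
    rw [← Submodule.mem_bot A, ← h, hP]
    exact ⟨u, by rw [← huv]; field_simp⟩
  -- an element of `P` which is moved out of `P`
  have hex : ∃ a ∈ P, ∃ s : A, s ∉ P ∧ algebraMap A L a * z1 = algebraMap A L s := by
    by_contra hno
    push Not at hno
    have hint : IsIntegral A z1 := by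
      refine isIntegral_of_smul_mem_submodule (M := L) (Submodule.map (Algebra.linearMap A L) P) ?_ ?_ z1 ?_
      · intro h
        apply hPbot
        rw [eq_bot_iff]
        intro x hx
        have hx2 : Algebra.linearMap A L x ∈ Submodule.map (Algebra.linearMap A L) P := Submodule.mem_map_of_mem hx
        rw [h, Submodule.mem_bot] at hx2
        rw [Submodule.mem_bot]
        apply hinj
        rw [map_zero]
        exact hx2
      · exact (IsNoetherian.noetherian P).map _
      · rintro _ ⟨a, ha, rfl⟩
        have ha' : a ∈ P := ha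
        have ha2 := ha'
        rw [hP] at ha2
        obtain ⟨t, ht⟩ := ha2
        refine ⟨t, ?_, ?_⟩
        · by_contra htP
          exact hno a ha' t htP ht
        · rw [Algebra.linearMap_apply, Algebra.linearMap_apply, smul_eq_mul, mul_comm, ht]
    obtain ⟨t, ht⟩ := (isIntegrallyClosed_iff L).mp ‹IsIntegrallyClosed A› hint
    exact hz1A t ht
  obtain ⟨a, haP, s, hsP, has⟩ := hex
  have hloc : ∀ w : L, InLoc A L P w ∨ InLoc A L P w⁻¹ := by
    have hval : ValuationRing (Localization.AtPrime P) := by
      refine ((tfae_of_isNoetherianRing_of_isLocalRing_of_isDomain (Localization.AtPrime P)).out 4 1).mp ?_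
      refine ⟨⟨algebraMap A (Localization.AtPrime P) a, ?_⟩⟩
      rw [← Localization.AtPrime.map_eq_maximalIdeal]
      apply le_antisymm
      · rw [Ideal.map_le_iff_le_comap]
        intro c hc
        rw [hP] at hc
        obtain ⟨t, ht⟩ := hc
        rw [Ideal.mem_comap, ← Ideal.span, Ideal.mem_span_singleton']
        have hsc : s * c = t * a := by
          apply hinj
          rw [map_mul, map_mul, ← ht, ← has]; ring
        refine ⟨IsLocalization.mk' _ t (⟨s, hsP⟩ : P.primeCompl), ?_⟩
        have hu : IsUnit (algebraMap A (Localization.AtPrime P) s) :=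
          IsLocalization.map_units (Localization.AtPrime P) (⟨s, hsP⟩ : P.primeCompl)
        apply hu.mul_left_cancel
        rw [← map_mul, hsc, map_mul, ← mul_assoc]
        congr 1
        rw [mul_comm]
        exact IsLocalization.mk'_spec (Localization.AtPrime P) t (⟨s, hsP⟩ : P.primeCompl)
      · rw [← Ideal.span, Ideal.span_singleton_le_iff_mem]
        exact Ideal.mem_map_of_mem _ haP
    have hinj2 : Function.Injective (algebraMap A (Localization.AtPrime P)) :=
      IsLocalization.injective (Localization.AtPrime P) P.primeCompl_le_nonZeroDivisors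
    have hdiv : ∀ u v : A, algebraMap A L v ≠ 0 →
        (∃ c : Localization.AtPrime P, algebraMap A _ v * c = algebraMap A _ u) →
        InLoc A L P (algebraMap A L u / algebraMap A L v) := by
      rintro u v hv ⟨c, hc⟩
      obtain ⟨t, s', rfl⟩ := IsLocalization.exists_mk'_eq P.primeCompl c
      refine ⟨t, s', s'.2, ?_⟩
      have h1 : v * t = u * s' := by
        apply hinj2
        rw [map_mul, map_mul, ← hc, mul_assoc, IsLocalization.mk'_spec]
      rw [← mul_div_assoc, div_eq_iff hv, ← map_mul, ← map_mul]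
      congr 1
      rw [mul_comm t v, h1, mul_comm]
    intro w
    obtain ⟨u, v, hv, rfl⟩ := IsFractionRing.div_surjective (A := A) w
    have hvK : algebraMap A L v ≠ 0 := by
      rw [Ne, IsFractionRing.to_map_eq_zero_iff]; exact nonZeroDivisors.ne_zero hv
    obtain ⟨c, hc⟩ := ValuationRing.cond (algebraMap A (Localization.AtPrime P) u)
      (algebraMap A (Localization.AtPrime P) v)
    rcases hc with hc | hc
    · by_cases hu : algebraMap A L u = 0
      · left
        exact ⟨0, 1, fun h => hPtop ((Ideal.eq_top_iff_one P).mpr h), by rw [hu]; simp⟩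
      · right
        rw [inv_div]
        exact hdiv v u hu ⟨c, hc⟩
    · left
      exact hdiv u v hvK ⟨c, hc⟩
  obtain ⟨a', s', hs', hsz⟩ := hz P hprime hloc
  apply hs'
  rw [hP]
  exact ⟨b0 * a', by rw [map_mul, ← hsz, hz1]; ring⟩

end Pool.Agent.Q176.NP
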