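import Pool.Agent.Q284.NP.Stm

set_option autoImplicit false

namespace Pool.Agent.Q176.NP

open Pool.Agent.Q284.NP IsLocalRing

theorem nrm : S_NRM := by
  intro p hp A _ _ _ _ _ hPB
  obtain ⟨n, e, he0, hex, huniq⟩ := hPB
  have hp2 : 2 ≤ p := hp.out.two_le
  rw [isIntegrallyClosed_iff (FractionRing A)]
  intro z hz
  by_contra hcon
  obtain ⟨c, hc0, hc⟩ := hz.isAlmostIntegral
  obtain ⟨a, b, hb, rfl⟩ := IsFractionRing.div_surjective (A := A) z
  have hb0 : b ≠ 0 := nonZeroDivisors.ne_zero hb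
  have hbK : algebraMap A (FractionRing A) b ≠ 0 := by
    rw [Ne, IsFractionRing.to_map_eq_zero_iff]; exact hb0
  have hinj : Function.Injective (algebraMap A (FractionRing A)) := IsFractionRing.injective A _
  have key : ∀ k : ℕ, ∀ r : A, b ^ p ^ k ∣ r * a ^ p ^ k → r ∈ maximalIdeal A ^ (k + 1) := by
    intro k
    induction k with
    | zero =>
      intro r hr
      rw [zero_add, pow_one, mem_maximalIdeal, mem_nonunits_iff]
      intro hu
      rw [pow_zero, pow_one, pow_one] at hr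
      obtain ⟨u, rfl⟩ := hu
      obtain ⟨s, hs⟩ := hr
      apply hcon
      refine ⟨(↑u⁻¹ : A) * s, ?_⟩
      rw [eq_div_iff hbK, ← map_mul]
      congr 1
      calc (↑u⁻¹ : A) * s * b = ↑u⁻¹ * (b * s) := by ring
        _ = ↑u⁻¹ * (↑u * a) := by rw [hs]
        _ = a := by rw [← mul_assoc, Units.inv_mul, one_mul]
    | succ k ih =>
      intro r hr
      obtain ⟨s, hs⟩ := hr
      obtain ⟨rc, hrc⟩ := hex r
      obtain ⟨sc, hsc⟩ := hex s
      have h1 : ∑ i, (rc i * a ^ p ^ k - b ^ p ^ k * sc i) ^ p * e i = 0 := by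
        have h2 : ∀ i, (rc i * a ^ p ^ k - b ^ p ^ k * sc i) ^ p * e i =
            (rc i ^ p * e i) * a ^ p ^ (k + 1) - b ^ p ^ (k + 1) * (sc i ^ p * e i) := by
          intro i
          rw [sub_pow_char, mul_pow, mul_pow, ← pow_mul, ← pow_mul, ← pow_succ]
          ring
        rw [Finset.sum_congr rfl fun i _ => h2 i, Finset.sum_sub_distrib, ← Finset.sum_mul,
          ← Finset.mul_sum, ← hrc, ← hsc, hs, sub_self]
      have h3 := huniq _ h1
      have h4 : ∀ i, rc i ∈ maximalIdeal A ^ (k + 1) := fun i =>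
        ih (rc i) ⟨sc i, sub_eq_zero.mp (h3 i)⟩
      rw [hrc]
      apply Ideal.sum_mem
      intro i _
      apply Ideal.mul_mem_right
      have h5 : rc i ^ p ∈ (maximalIdeal A ^ (k + 1)) ^ p := Ideal.pow_mem_pow (h4 i) p
      rw [← pow_mul] at h5
      refine Ideal.pow_le_pow_right ?_ h5
      nlinarith
  have hall : ∀ k : ℕ, c ∈ maximalIdeal A ^ (k + 1) := by
    intro k
    apply key
    obtain ⟨s, hs⟩ := hc (p ^ k)
    refine ⟨s, hinj ?_⟩
    rw [map_mul, map_mul, map_pow, map_pow]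
    rw [hs, div_pow, Algebra.smul_def]
    field_simp
  have hbot : c ∈ (⨅ i : ℕ, maximalIdeal A ^ i : Ideal A) := by
    rw [Ideal.mem_iInf]
    intro i
    exact Ideal.pow_le_pow_right (Nat.le_succ i) (hall i)
  rw [Ideal.iInf_pow_eq_bot_of_isLocalRing _ (maximalIdeal.isMaximal A).ne_top] at hbot
  exact nonZeroDivisors.ne_zero hc0 ((Submodule.mem_bot A).mp hbot)

end Pool.Agent.Q176.NP
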